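import Pool.Agent.X23.HP.Haag
import Pool.Agent.X23.HP2.NoHeat

/-!
# An amenable group without the heat property

The wreath product `ℤ/2 ≀ ℤ⁴` is a countably infinite amenable group, it has the Haagerup property, and it does not
have the heat property with respect to any negative definite function. The definitions are in
`Pool.Agent.X23.HP2.Defs` (`IsLeftRegular`, `CrSet`, `coef`, `CF`, `IsBddLin`, `HeatWrt`,
`HasRegular`, `Heat`), `Pool.Agent.X23.HP.Defs`
(`NegDef`, `Haagerup`) and `Pool.Agent.X23.HP.Haag` (`Folner`).
-/

set_option autoImplicit false

namespace Pool.Agent.Results.MP_94b6b1_an.AmenableNoHeat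

open Pool.Agent.X23.HP Pool.Agent.X23.HP2

/-- There is a countably infinite group which is amenable and has the Haagerup property, but does
not have the heat property with respect to any `d ∈ ND_0^+(G)`. -/
theorem result : ∃ (G : Type) (_ : Group G),
    Countable G ∧ Infinite G ∧ Folner G ∧ Haagerup G ∧ HasRegular G ∧
      ¬ Pool.Agent.X23.HP2.Heat G :=
  ⟨WG, inferInstance, inferInstance, inferInstance, folner_WG, haagerup_WG, exists_regular WG,
    Pool.Agent.X23.HP2.not_Heat⟩

end Pool.Agent.Results.MP_94b6b1_an.AmenableNoHeat
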